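import Pool.Agent.Helper62.GR.Goals

/-!
# Project GR (MP_08df5f_al), packet S4: some section is in the group
-/

set_option autoImplicit false

namespace Pool.Agent.Helper49.GR

open Equiv Pool.Agent.Helper62.GR

/-- the elements of the packet -/
def Cm (h : Perm X) : Prop := Nm h ∧ h xi = xi ∧ ∀ s, h * gs s = gs s * h

/-- (1) -/
theorem cm_split (h3 : G_NS) {h : Perm X} (hC : Cm h) :
    ∃ h0 h1, h = pr h0 h1 ∧ Nm h0 ∧ Cm h1 ∧ h0 * ga = ga * h0 := by
  obtain ⟨hN, hx, hc⟩ := hC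
  obtain ⟨h0, h1, rfl, h1x⟩ := h3.2.1 h hN hx
  obtain ⟨n0, n1⟩ := h3.1 h0 h1 hN
  have key : ∀ s, h0 * (if s % 3 = 2 then 1 else ga) = (if s % 3 = 2 then 1 else ga) * h0 ∧
      h1 * gs (s + 1) = gs (s + 1) * h1 := by
    intro s
    have e := hc s
    rw [gs_eq_pr, pr_mul, pr_mul] at e
    exact pr_inj e
  refine ⟨h0, h1, rfl, n0, ⟨n1, h1x, fun s => ?_⟩, ?_⟩
  · have e := (key (s + 2)).2
    rwa [show s + 2 + 1 = s + 3 from rfl, gs_add_three] at e
  · have e := (key 0).1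
    simpa using e

theorem pr_of_comm (f : Perm X) (hA : ∀ n x y, Agr n (f x) (f y) ↔ Agr n x y)
    (hc : f * ga = ga * f) (h0 : f (cn false xi) 0 = false) : ∃ u, f = pr u u := by
  have h1 : ∀ x, f (cn false x) 0 = false := by
    intro x
    have : Agr 1 (f (cn false x)) (f (cn false xi)) :=
      (hA 1 _ _).2 (Agr_cn.2 ⟨rfl, Agr_zero _ _⟩)
    rw [this 0 (by omega), h0]
  have h2 : ∀ x, f.symm (cn false x) 0 = false := by
    intro x
    have : Agr 1 (f (f.symm (cn false x))) (f (cn false xi)) := by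
      rw [Equiv.apply_symm_apply]
      intro i hi
      have : i = 0 := by omega
      subst this
      rw [h0]
      rfl
    have h3 := (hA 1 _ _).1 this 0 (by omega)
    rw [h3]
    rfl
  have e1 : ∀ x, cn false (tl (f (cn false x))) = f (cn false x) := by
    intro x
    have := cn_tl (f (cn false x))
    rwa [h1 x] at this
  have e2 : ∀ x, cn false (tl (f.symm (cn false x))) = f.symm (cn false x) := by
    intro x
    have := cn_tl (f.symm (cn false x))
    rwa [h2 x] at this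
  refine ⟨⟨fun x => tl (f (cn false x)), fun x => tl (f.symm (cn false x)), ?_, ?_⟩, ?_⟩
  · intro x
    change tl (f.symm (cn false (tl (f (cn false x))))) = x
    rw [e1, Equiv.symm_apply_apply, tl_cn]
  · intro x
    change tl (f (cn false (tl (f.symm (cn false x))))) = x
    rw [e2, Equiv.apply_symm_apply, tl_cn]
  · apply perm_ext
    rintro (_ | _) x
    · exact (e1 x).symm
    · have e3 : f (cn true x) = ga (f (cn false x)) := by
        rw [← Perm.mul_apply, ← hc, Perm.mul_apply, ga_cn]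
        rfl
      rw [e3, ← e1 x, ga_cn]
      rfl

theorem pr_or (h1 : G_SE) (f : Perm X) (hf : Nm f) (hc : f * ga = ga * f) :
    ∃ u, f = pr u u ∨ f = ga * pr u u := by
  rcases Bool.eq_false_or_eq_true (f (cn false xi) 0) with h0 | h0
  · obtain ⟨u, hu⟩ := pr_of_comm (ga * f) (fun n x y => by
      rw [Perm.mul_apply, Perm.mul_apply, h1.1 ga ga_mem]
      exact hf.1 n x y) (by rw [mul_assoc, hc]) (by
        rw [Perm.mul_apply, ga_apply_zero, h0]
        rfl)
    refine ⟨u, Or.inr ?_⟩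
    rw [← hu, ← mul_assoc, ga_mul_ga, one_mul]
  · obtain ⟨u, hu⟩ := pr_of_comm f hf.1 hc h0
    exact ⟨u, Or.inl hu⟩

/-- (2) -/
theorem step_ev (h2 : G_WO) {u v0 v1 : Perm X} {w : List Lt}
    (h : (pr u u) * (pr v0 v1)⁻¹ = ev w ∨ (ga * pr u u) * (pr v0 v1)⁻¹ = ev w) :
    v0 * v1⁻¹ = ev (TT w) := by
  obtain ⟨w1, w2, w3, -, -, -, -, -, -, w10, -⟩ := h2
  have key : u * v0⁻¹ = ev (sec false w) ∧ u * v1⁻¹ = ev (sec true w) := by
    rcases h with h | h
    · rw [pr_inv, pr_mul] at h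
      constructor
      · ext1 x
        have e := congrArg (fun f : Perm X => f (cn false x)) h
        simp only [pr_false, w2] at e
        exact (cn_inj e).2
      · ext1 x
        have e := congrArg (fun f : Perm X => f (cn true x)) h
        simp only [pr_true, w2] at e
        exact (cn_inj e).2
    · rw [pr_inv, mul_assoc, pr_mul] at h
      constructor
      · ext1 x
        have e := congrArg (fun f : Perm X => f (cn false x)) h
        simp only [Perm.mul_apply ga, pr_false, ga_cn, w2] at e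
        exact (cn_inj e).2
      · ext1 x
        have e := congrArg (fun f : Perm X => f (cn true x)) h
        simp only [Perm.mul_apply ga, pr_true, ga_cn, w2] at e
        exact (cn_inj e).2
  rw [TT, w3, w1, w10, ← key.1, ← key.2]
  group

/-- (3) -/
theorem uniq (h1 : G_SE) (h3 : G_NS) (n : ℕ) : ∀ h0 k0 h0' k0' : Perm X,
    Cm (pr h0 k0) → Cm (pr h0' k0') → h0 * k0⁻¹ = h0' * k0'⁻¹ →
    ∀ x, Agr n (pr h0 k0 x) (pr h0' k0' x) := by
  induction n with
  | zero => exact fun _ _ _ _ _ _ _ x => Agr_zero _ _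
  | succ n ih =>
    intro h0 k0 h0' k0' hC hC' he x
    obtain ⟨a0, a1, ea, na, ca, sa⟩ := cm_split h3 hC
    obtain ⟨rfl, rfl⟩ := pr_inj ea
    obtain ⟨b0, b1, eb, nb, cb, sb⟩ := cm_split h3 hC'
    obtain ⟨rfl, rfl⟩ := pr_inj eb
    obtain ⟨v0, v1, ev1, -, -, -⟩ := cm_split h3 ca
    obtain ⟨v0', v1', ev1', -, -, -⟩ := cm_split h3 cb
    obtain ⟨u, hu⟩ := pr_or h1 h0 na sa
    obtain ⟨u', hu'⟩ := pr_or h1 h0' nb sb
    have hη : h0 * k0⁻¹ ∈ GG := h3.2.2.1 h0 k0 hC.1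
    have key : v0 * v1⁻¹ = v0' * v1'⁻¹ := by
      have e1 : u * v0⁻¹ = u' * v0'⁻¹ ∧ u * v1⁻¹ = u' * v1'⁻¹ := by
        rw [ev1, ev1'] at he
        rcases hu with hu | hu <;> rcases hu' with hu' | hu' <;>
          rw [hu, hu', pr_inv, pr_inv] at he
        · rw [pr_mul, pr_mul] at he
          exact pr_inj he
        · rw [mul_assoc, pr_mul, pr_mul] at he
          exact absurd he (pr_ne _ _ _ _)
        · rw [mul_assoc, pr_mul, pr_mul] at he
          exact absurd he.symm (pr_ne _ _ _ _)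
        · rw [mul_assoc, mul_assoc, pr_mul, pr_mul] at he
          exact pr_inj (mul_left_cancel he)
      have e2 : v0 * v1⁻¹ = (u * v0⁻¹)⁻¹ * (u * v1⁻¹) := by group
      have e3 : v0' * v1'⁻¹ = (u' * v0'⁻¹)⁻¹ * (u' * v1'⁻¹) := by group
      rw [e2, e3, e1.1, e1.2]
    have hk : ∀ y, Agr n (k0 y) (k0' y) := by
      intro y
      rw [ev1, ev1']
      rw [ev1] at ca
      rw [ev1'] at cb
      exact ih v0 v1 v0' v1' ca cb key y
    have hh : ∀ y, Agr n (h0 y) (h0' y) := by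
      intro y
      have e1 : h0 y = (h0 * k0⁻¹) (k0 y) := by simp
      have e2 : h0' y = (h0 * k0⁻¹) (k0' y) := by rw [he]; simp
      rw [e1, e2]
      exact (h1.1 _ hη n _ _).2 (hk y)
    rw [← cn_tl x]
    rcases Bool.eq_false_or_eq_true (x 0) with hx | hx
    · rw [hx, pr_true, pr_true]
      exact Agr_cn.2 ⟨rfl, hk _⟩
    · rw [hx, pr_false, pr_false]
      exact Agr_cn.2 ⟨rfl, hh _⟩

theorem uniq' (h1 : G_SE) (h3 : G_NS) {h0 k0 h0' k0' : Perm X} (hC : Cm (pr h0 k0))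
    (hC' : Cm (pr h0' k0')) (he : h0 * k0⁻¹ = h0' * k0'⁻¹) : pr h0 k0 = pr h0' k0' := by
  ext1 x
  exact eq_of_Agr fun n => uniq h1 h3 n h0 k0 h0' k0' hC hC' he x

theorem cm_gs (h3 : G_NS) (s : ℕ) : Cm (gs s) :=
  ⟨h3.2.2.2.2.1 _ (gs_mem s), gs_xi s, fun t => gs_comm s t⟩

theorem cm_one (h3 : G_NS) : Cm 1 :=
  ⟨h3.2.2.2.2.1 _ (one_mem _), rfl, fun t => by rw [one_mul, mul_one]⟩

theorem base (h1 : G_SE) (h3 : G_NS) {h0 k0 : Perm X} (hC : Cm (pr h0 k0)) {w : List Lt}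
    (he : h0 * k0⁻¹ = ev w) (hw : w = [] ∨ w = [.a, .c] ∨ w = [.a, .d] ∨ w = [.b]) :
    pr h0 k0 ∈ GG := by
  rcases hw with rfl | rfl | rfl | rfl
  · have e : pr h0 k0 = pr 1 1 := uniq' h1 h3 hC (by rw [pr_one]; exact cm_one h3) (by
      rw [he]
      simp [ev])
    rw [e, pr_one]
    exact one_mem _
  · have eg : gs 0 = pr ga (gs 1) := by
      rw [gs_eq_pr]
      simp
    have e : pr h0 k0 = pr ga (gs 1) := uniq' h1 h3 hC (by rw [← eg]; exact cm_gs h3 0) (by
      rw [he, gs_inv]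
      simp [ev, lt])
    rw [e, ← eg]
    exact gs_mem 0
  · have eg : gs 1 = pr ga (gs 2) := by
      rw [gs_eq_pr]
      simp
    have e : pr h0 k0 = pr ga (gs 2) := uniq' h1 h3 hC (by rw [← eg]; exact cm_gs h3 1) (by
      rw [he, gs_inv]
      simp [ev, lt])
    rw [e, ← eg]
    exact gs_mem 1
  · have eg : gs 2 = pr 1 (gs 0) := by
      rw [gs_eq_pr]
      simp only [show 2 % 3 = 2 from rfl, if_true]
      congr 1
      exact gs_congr rfl
    have e : pr h0 k0 = pr 1 (gs 0) := uniq' h1 h3 hC (by rw [← eg]; exact cm_gs h3 2) (by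
      rw [he, gs_inv]
      simp [ev, lt])
    rw [e, ← eg]
    exact gs_mem 2

/-- (4) -/
theorem iter (h1 : G_SE) (h2 : G_WO) (h3 : G_NS) (n : ℕ) : ∀ (h0 k0 : Perm X) (w : List Lt),
    Cm (pr h0 k0) → h0 * k0⁻¹ = ev w →
    (TT^[n] w = [] ∨ TT^[n] w = [.a, .c] ∨ TT^[n] w = [.a, .d] ∨ TT^[n] w = [.b]) →
    ∃ h', Up (pr h0 k0) h' ∧ h' ∈ GG := by
  induction n with
  | zero =>
    intro h0 k0 w hC he hw
    exact ⟨_, Up.refl _, base h1 h3 hC he hw⟩
  | succ n ih =>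
    intro h0 k0 w hC he hw
    simp only [Function.iterate_succ_apply] at hw
    obtain ⟨a0, a1, ea, na, ca, sa⟩ := cm_split h3 hC
    obtain ⟨rfl, rfl⟩ := pr_inj ea
    obtain ⟨v0, v1, ev1, -, -, -⟩ := cm_split h3 ca
    obtain ⟨u, hu⟩ := pr_or h1 h0 na sa
    have e : v0 * v1⁻¹ = ev (TT w) := by
      refine step_ev (u := u) h2 ?_
      rcases hu with hu | hu
      · left
        rw [← hu, ← ev1, he]
      · right
        rw [← hu, ← ev1, he]
    rw [ev1] at ca
    obtain ⟨h', hU, hG⟩ := ih v0 v1 (TT w) ca e hw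
    rw [← ev1] at hU
    exact ⟨h', Up.step _ _ _ hU, hG⟩

/-- **S4** -/
theorem s4 (h1 : G_SE) (h2 : G_WO) (h3 : G_NS) (h4 : G_TW) : G_S4 := by
  intro h hN hx hc
  have hC : Cm h := ⟨hN, hx, hc⟩
  obtain ⟨h0, k0, rfl, -, -, -⟩ := cm_split h3 hC
  have hη : h0 * k0⁻¹ ∈ GG := h3.2.2.1 h0 k0 hN
  obtain ⟨w, hw, he⟩ := h2.2.2.2.2.2.2.2.2.1 _ hη
  obtain ⟨n, hn⟩ := h4 w hw
  exact iter h1 h2 h3 n h0 k0 w hC he.symm hn

end Pool.Agent.Helper49.GR
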