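import Pool.Agent.Helper62.GR.Goals
import Pool.Agent.Helper35.WB.NF
import Pool.Agent.Helper62.WB.QF

/-!
# Project GR (MP_08df5f_al), packet S6: a power of the endomorphism is inner
-/

set_option autoImplicit false

namespace Pool.Agent.Helper49.GR

open Pool.Agent.Helper62.GR Pool.Agent.Helper62.WB

theorem fp_equiv {G H : Type} [Group G] [Group H] (e : G ≃* H) (h : FP G) : FP H := by
  obtain ⟨k, π, R, hπ, hR⟩ := h
  refine ⟨k, e.toMonoidHom.comp π, R, e.surjective.comp hπ, ?_⟩
  rw [← hR]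
  ext x
  simp [MonoidHom.mem_ker]

section

variable {Γ : Type} [Group Γ] (σ : Γ →* Γ) (hσ : Function.Injective σ)

/-- the exponent sum of `t` -/
noncomputable def chi : Asc σ hσ →* Multiplicative ℤ :=
  HNNExtension.lift 1 (Multiplicative.ofAdd 1) (fun a => by simp)

theorem chi_of (x : Γ) : chi σ hσ (HNNExtension.of x) = 1 := by
  simp [chi]

theorem chi_t : chi σ hσ HNNExtension.t = Multiplicative.ofAdd 1 := by
  simp [chi]

theorem chi_tz (m : ℤ) : chi σ hσ (HNNExtension.t ^ m) = Multiplicative.ofAdd m := by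
  rw [map_zpow, chi_t, ← ofAdd_zsmul]
  simp

/-- every element is of the form `γ t^m` if `σ` is onto -/
theorem form (hs : Function.Surjective σ) (q : Asc σ hσ) :
    ∃ (x : Γ) (m : ℤ), q = HNNExtension.of x * HNNExtension.t ^ m := by
  obtain ⟨i, k, y, rfl⟩ := (Pool.Agent.Helper35.WB.nf Γ σ hσ).1 q
  obtain ⟨x, hx⟩ := hs.iterate i y
  refine ⟨x, -(i : ℤ) + k, ?_⟩
  have e := Pool.Agent.Helper35.WB.of_tpow_inv (σ := σ) (hσ := hσ) i x
  rw [hx] at e
  rw [zpow_neg, zpow_natCast, ← e, zpow_add, zpow_neg, mul_assoc]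
  simp only [zpow_natCast]

/-- the exponent sum modulo `j` -/
noncomputable def chj (j : ℕ) : Asc σ hσ →* Multiplicative (ZMod j) :=
  (AddMonoidHom.toMultiplicative (Int.castAddHom (ZMod j))).comp (chi σ hσ)

theorem mem_chj (j : ℕ) (q : Asc σ hσ) :
    q ∈ (chj σ hσ j).ker ↔ (j : ℤ) ∣ (chi σ hσ q).toAdd := by
  rw [MonoidHom.mem_ker, ← ZMod.intCast_zmod_eq_zero_iff_dvd]
  rfl

end

/-- **S6** -/
theorem s6 (h : G_RS) : G_S6 := by
  intro Γ _ σ hσ hs j g hj hin hFP
  have : NeZero j := ⟨by omega⟩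
  set P : Subgroup (Asc σ hσ) := (chj σ hσ j).ker with hP
  have hfin : P.FiniteIndex := by
    rw [hP]
    infer_instance
  have hPF : FP P := h (Asc σ hσ) P hFP hfin
  -- the element `z`
  set z : Asc σ hσ := (HNNExtension.of g)⁻¹ * HNNExtension.t ^ j with hz
  have hzc : ∀ x : Γ, Commute z (HNNExtension.of x) := by
    intro x
    change z * HNNExtension.of x = HNNExtension.of x * z
    rw [hz, mul_assoc, Pool.Agent.Helper35.WB.tpow_of, hin, ← mul_assoc, ← mul_assoc, ← map_inv,
      ← map_mul, ← map_mul]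
    congr 2
    group
  have hchz : chi σ hσ z = Multiplicative.ofAdd (j : ℤ) := by
    rw [hz, map_mul, map_inv, chi_of, inv_one, one_mul, ← zpow_natCast, chi_tz]
  have hzP : z ∈ P := by
    rw [hP, mem_chj, hchz]
    exact dvd_refl _
  have hofP : ∀ x : Γ, (HNNExtension.of x : Asc σ hσ) ∈ P := by
    intro x
    rw [hP, mem_chj, chi_of]
    exact dvd_zero _
  have hform : ∀ q ∈ P, ∃ (x : Γ) (m : ℤ), q = HNNExtension.of x * z ^ m := by
    intro q hq
    obtain ⟨x, n, rfl⟩ := form σ hσ hs q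
    rw [hP, mem_chj, map_mul, chi_of, one_mul, chi_tz] at hq
    obtain ⟨m, hm⟩ := hq
    refine ⟨x * g ^ m, m, ?_⟩
    have e1 : (HNNExtension.t : Asc σ hσ) ^ j = HNNExtension.of g * z := by
      rw [hz, mul_inv_cancel_left]
    have e2 : n = j * m := hm
    rw [e2, zpow_mul, zpow_natCast, e1, (hzc g).symm.mul_zpow, map_mul, map_zpow, mul_assoc]
  -- the central subgroup
  set z' : P := ⟨z, hzP⟩ with hz'
  have hcen : ∀ q : P, q * z' = z' * q := by
    rintro ⟨q, hq⟩
    apply Subtype.ext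
    change q * z = z * q
    obtain ⟨x, m, rfl⟩ := hform q hq
    have c1 : Commute z (HNNExtension.of x * z ^ m) :=
      (hzc x).mul_right ((Commute.refl z).zpow_right m)
    exact c1.symm.eq
  have hcz : ∀ (q : P) (m : ℤ), q * z' ^ m = z' ^ m * q := fun q m =>
    (Commute.zpow_right (show Commute q z' from hcen q) m).eq
  set N : Subgroup P := Subgroup.zpowers z' with hN
  have hNn : N.Normal := by
    refine ⟨fun n hn q => ?_⟩
    obtain ⟨m, rfl⟩ := hn
    rw [hN]
    refine ⟨m, ?_⟩
    change z' ^ m = q * z' ^ m * q⁻¹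
    rw [hcz, mul_inv_cancel_right]
  have hNc : N = Subgroup.normalClosure (({z'} : Finset P) : Set P) := by
    apply le_antisymm
    · rw [hN, Subgroup.zpowers_le]
      exact Subgroup.subset_normalClosure (by simp)
    · refine Subgroup.normalClosure_le_normal ?_
      intro y hy
      have : y = z' := by simpa using hy
      rw [this]
      exact Subgroup.mem_zpowers z'
  have hPN : FP (P ⧸ N) := qf P N hPF ⟨{z'}, hNc⟩
  -- the isomorphism
  let i : Γ →* P := (HNNExtension.of : Γ →* Asc σ hσ).codRestrict P hofP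
  let e : Γ →* P ⧸ N := (QuotientGroup.mk' N).comp i
  have hei : Function.Injective e := by
    rw [injective_iff_map_eq_one]
    intro x hx
    have h1 : i x ∈ N := (QuotientGroup.eq_one_iff (i x)).1 hx
    obtain ⟨m, hm⟩ := h1
    have h2 : z ^ m = HNNExtension.of x := by
      have h5 : ((z' ^ m : P) : Asc σ hσ) = (i x : P) := congrArg Subtype.val hm
      rw [Subgroup.coe_zpow] at h5
      exact h5
    have h3 : (j : ℤ) * m = 0 := by
      have h4 := congrArg (chi σ hσ) h2
      rw [map_zpow, hchz, chi_of, ← ofAdd_zsmul] at h4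
      have h5 : m • (j : ℤ) = 0 := h4
      rw [smul_eq_mul] at h5
      linarith
    have h4 : m = 0 := by
      rcases mul_eq_zero.1 h3 with h5 | h5
      · exfalso
        omega
      · exact h5
    rw [h4, zpow_zero] at h2
    exact HNNExtension.of_injective (φ := ascEquiv σ hσ) (by rw [← h2, map_one])
  have hes : Function.Surjective e := by
    intro y
    obtain ⟨⟨q, hq⟩, rfl⟩ := QuotientGroup.mk_surjective y
    obtain ⟨x, m, rfl⟩ := hform q hq
    refine ⟨x, ?_⟩
    change ((i x : P) : P ⧸ N) = _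
    refine QuotientGroup.eq.2 ?_
    refine ⟨m, ?_⟩
    apply Subtype.ext
    change ((z' ^ m : P) : Asc σ hσ) = (HNNExtension.of x)⁻¹ * (HNNExtension.of x * z ^ m)
    rw [inv_mul_cancel_left]
    rfl
  exact fp_equiv (MulEquiv.ofBijective e ⟨hei, hes⟩).symm hPN

end Pool.Agent.Helper49.GR
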